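import Pool.Agent.helper46.T6L.SpecO

set_option autoImplicit false

/-!
# T6L, block O, row OSS: the weights of all conductors
-/

namespace Pool.Agent.T6L

open Finset NumberField Pool.Agent.helper3.FT Pool.Agent.helper47.RA Pool.Agent.T5
open Pool.Agent.helper26.T5 (nn LEMB LPR LAW LP LPA HLN HPR HSQ HID HCL HGA)
open Pool.Agent.helper28.LT (rad)

/-- `K ^ ω(R) / R ^ 2` -/
noncomputable def OSS_psi (K : ℝ) (R : ℕ) : ℝ := K ^ R.primeFactors.card / (R : ℝ) ^ 2

theorem OSS_psi_nonneg {K : ℝ} (hK : 1 ≤ K) (R : ℕ) : 0 ≤ OSS_psi K R := by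
  unfold OSS_psi
  positivity

theorem OSS_omega {K : ℝ} (hK : 1 ≤ K) (R : ℕ) (hR : 1 ≤ R) :
    K ^ R.primeFactors.card ≤ K ^ ⌈K ^ 2⌉₊ * √(R : ℝ) := by
  set M := ⌈K ^ 2⌉₊ with hM
  have h1 : R.primeFactors.card = (R.primeFactors.filter (fun p => p < M)).card +
      (R.primeFactors.filter (fun p => ¬ p < M)).card := (Finset.card_filter_add_card_filter_not _).symm
  rw [h1, pow_add]
  have h2 : (R.primeFactors.filter (fun p => p < M)).card ≤ M := by
    have := Finset.card_le_card (s := R.primeFactors.filter (fun p => p < M)) (t := Finset.range M) (by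
      intro p hp
      exact Finset.mem_range.2 (Finset.mem_filter.1 hp).2)
    rwa [Finset.card_range] at this
  have h3 : K ^ (R.primeFactors.filter (fun p => ¬ p < M)).card ≤ √(R : ℝ) := by
    have h4 : K ^ (R.primeFactors.filter (fun p => ¬ p < M)).card ≤
        ∏ p ∈ R.primeFactors.filter (fun p => ¬ p < M), √(p : ℝ) := by
      rw [← Finset.prod_const]
      refine Finset.prod_le_prod (fun _ _ => by linarith) fun p hp => ?_
      have h5 : M ≤ p := not_lt.1 (Finset.mem_filter.1 hp).2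
      apply Real.le_sqrt_of_sq_le
      exact (Nat.le_ceil (K ^ 2)).trans (by exact_mod_cast h5)
    refine h4.trans ?_
    rw [← Real.sqrt_prod _ (fun _ _ => Nat.cast_nonneg _)]
    apply Real.sqrt_le_sqrt
    rw [← Nat.cast_prod, Nat.cast_le]
    refine (Finset.prod_le_prod_of_subset_of_one_le' (Finset.filter_subset _ _) fun p hp _ => ?_).trans
      (Nat.le_of_dvd hR (Nat.prod_primeFactors_dvd R))
    exact (Nat.prime_of_mem_primeFactors hp).one_le
  exact mul_le_mul (pow_le_pow_right₀ hK h2) h3 (by positivity) (by positivity)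

theorem OSS_bound {K : ℝ} (hK : 1 ≤ K) : ∃ C₁ : ℝ, 0 ≤ C₁ ∧ ∀ T : Finset ℕ, (∀ R ∈ T, 1 ≤ R) →
    ∑ R ∈ T, OSS_psi K R ≤ C₁ := by
  have hs : Summable (fun n : ℕ => ((n : ℝ) ^ (3 / 2 : ℝ))⁻¹) := Real.summable_nat_rpow_inv.2 (by norm_num)
  refine ⟨K ^ ⌈K ^ 2⌉₊ * ∑' n : ℕ, ((n : ℝ) ^ (3 / 2 : ℝ))⁻¹, by positivity, fun T hT => ?_⟩
  have h1 : ∀ R ∈ T, OSS_psi K R ≤ K ^ ⌈K ^ 2⌉₊ * ((R : ℝ) ^ (3 / 2 : ℝ))⁻¹ := by
    intro R hR
    have hR1 := hT R hR
    have hR0 : (0 : ℝ) < R := by exact_mod_cast hR1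
    unfold OSS_psi
    rw [div_le_iff₀ (by positivity)]
    refine (OSS_omega hK R hR1).trans (le_of_eq ?_)
    have h2 : (R : ℝ) ^ 2 = (R : ℝ) ^ (3 / 2 : ℝ) * √(R : ℝ) := by
      rw [Real.sqrt_eq_rpow, ← Real.rpow_add hR0, ← Real.rpow_natCast]
      norm_num
    rw [h2]
    have h3 : (R : ℝ) ^ (3 / 2 : ℝ) ≠ 0 := (Real.rpow_pos_of_pos hR0 _).ne'
    field_simp
  refine (Finset.sum_le_sum h1).trans ?_
  rw [← Finset.mul_sum]
  refine mul_le_mul_of_nonneg_left ?_ (by positivity)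
  exact hs.sum_le_tsum T fun n _ => by positivity

theorem OSS_rad_prime {K : ℝ} (f p : ℕ) (hp : p ∈ f.primeFactors) : ∃ m : ℕ, 1 ≤ m ∧ rad f = p * m ∧
    OSS_psi K (rad f) = K / (p : ℝ) ^ 2 * OSS_psi K m := by
  have hpr : ∀ q ∈ f.primeFactors.erase p, q.Prime := fun q hq => Nat.prime_of_mem_primeFactors (Finset.mem_of_mem_erase hq)
  refine ⟨∏ q ∈ f.primeFactors.erase p, q, ?_, ?_, ?_⟩
  · exact Finset.one_le_prod' fun q hq => (hpr q hq).one_le
  · exact (Finset.mul_prod_erase _ _ hp).symm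
  · have h1 : (rad f).primeFactors = f.primeFactors := Nat.primeFactors_prod fun q hq => Nat.prime_of_mem_primeFactors hq
    have h2 : (∏ q ∈ f.primeFactors.erase p, q).primeFactors = f.primeFactors.erase p := Nat.primeFactors_prod hpr
    have h3 : rad f = p * ∏ q ∈ f.primeFactors.erase p, q := (Finset.mul_prod_erase _ _ hp).symm
    unfold OSS_psi
    rw [h1, h2]
    have h4 : f.primeFactors.card = (f.primeFactors.erase p).card + 1 := (Finset.card_erase_add_one hp).symm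
    rw [h3, h4, pow_succ]
    push_cast
    rw [div_mul_div_comm, mul_pow, mul_comm K]

theorem OSS (hOSR : OSR_stmt) : OSS_stmt := by
  classical
  obtain ⟨K, hK, hO⟩ := hOSR
  obtain ⟨C₁, hC₁, hb⟩ := OSS_bound hK
  have hrad1 : ∀ f : ℕ, 1 ≤ rad f := fun f => Finset.one_le_prod' fun q hq => (Nat.prime_of_mem_primeFactors hq).one_le
  -- sorting by the radical
  have hsort : ∀ s : Finset ℕ, (∀ f ∈ s, 1 ≤ f) → ∑ f ∈ s, gw f ≤ ∑ R ∈ s.image rad, OSS_psi K R := by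
    intro s hs
    rw [← Finset.sum_fiberwise_of_maps_to (fun f hf => Finset.mem_image_of_mem rad hf) gw]
    refine Finset.sum_le_sum fun R _ => ?_
    exact hO _ R fun f hf => ⟨hs f (Finset.mem_filter.1 hf).1, (Finset.mem_filter.1 hf).2⟩
  refine ⟨1 + C₁ + 2 * K * C₁, ?_, ?_, ?_⟩
  · have : 0 ≤ 2 * K * C₁ := by positivity
    linarith
  · intro s hs
    have h1 := hb (s.image rad) fun R hR => by
      obtain ⟨f, -, rfl⟩ := Finset.mem_image.1 hR
      exact hrad1 f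
    have h2 : 0 ≤ 2 * K * C₁ := by positivity
    linarith [hsort s hs]
  · intro P s hP hs
    have hP0 : 0 < P := by linarith
    refine (hsort s fun f hf => (hs f hf).1).trans ?_
    have hch : ∀ R ∈ s.image rad, ∃ x : ℕ × ℕ, P < x.1 ∧ 1 ≤ x.2 ∧ R = x.1 * x.2 ∧
        OSS_psi K R = K / (x.1 : ℝ) ^ 2 * OSS_psi K x.2 := by
      intro R hR
      obtain ⟨f, hf, rfl⟩ := Finset.mem_image.1 hR
      obtain ⟨hf1, p, hp, hpf, hPp⟩ := hs f hf
      obtain ⟨m, hm1, hm2, hm3⟩ := OSS_rad_prime (K := K) f p (Nat.mem_primeFactors.2 ⟨hp, hpf, by omega⟩)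
      exact ⟨(p, m), hPp, hm1, hm2, hm3⟩
    choose! x hx1 hx2 hx3 hx4 using hch
    have hinj : Set.InjOn x (s.image rad : Set ℕ) := by
      intro R hR R' hR' h
      rw [hx3 R hR, hx3 R' hR', h]
    have e1 : ∑ R ∈ s.image rad, OSS_psi K R = ∑ y ∈ (s.image rad).image x, K / (y.1 : ℝ) ^ 2 * OSS_psi K y.2 := by
      rw [Finset.sum_image hinj]
      exact Finset.sum_congr rfl fun R hR => hx4 R hR
    rw [e1]
    set Y := (s.image rad).image x with hY
    have hYm : ∀ y ∈ Y, P < y.1 ∧ 1 ≤ y.2 := by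
      intro y hy
      obtain ⟨R, hR, rfl⟩ := Finset.mem_image.1 hy
      exact ⟨hx1 R hR, hx2 R hR⟩
    have e2 : ∑ y ∈ Y, K / (y.1 : ℝ) ^ 2 * OSS_psi K y.2 ≤
        ∑ y ∈ (Y.image Prod.fst) ×ˢ (Y.image Prod.snd), K / (y.1 : ℝ) ^ 2 * OSS_psi K y.2 := by
      refine Finset.sum_le_sum_of_subset_of_nonneg ?_ ?_
      · intro y hy
        exact Finset.mem_product.2 ⟨Finset.mem_image_of_mem _ hy, Finset.mem_image_of_mem _ hy⟩
      · intro y _ _
        exact mul_nonneg (by positivity) (OSS_psi_nonneg hK _)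
    refine e2.trans ?_
    rw [Finset.sum_product, ← Finset.sum_mul_sum (Y.image Prod.fst) (Y.image Prod.snd) (fun p : ℕ => K / (p : ℝ) ^ 2) (OSS_psi K)]
    have e3 : ∑ m ∈ Y.image Prod.snd, OSS_psi K m ≤ C₁ := hb _ fun m hm => by
      obtain ⟨y, hy, rfl⟩ := Finset.mem_image.1 hm
      exact (hYm y hy).2
    have e4 : ∑ p ∈ Y.image Prod.fst, K / (p : ℝ) ^ 2 ≤ K * (2 / P) := by
      have h1 : ∑ p ∈ Y.image Prod.fst, K / (p : ℝ) ^ 2 = K * ∑ p ∈ Y.image Prod.fst, ((p : ℝ) ^ 2)⁻¹ := by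
        rw [Finset.mul_sum]
        exact Finset.sum_congr rfl fun p _ => div_eq_mul_inv _ _
      rw [h1]
      refine mul_le_mul_of_nonneg_left ?_ (by linarith)
      have h2 : Y.image Prod.fst ⊆ Finset.Ioo ⌊P⌋₊ ((Y.image Prod.fst).sup id + 1) := by
        intro p hp
        rw [Finset.mem_Ioo]
        refine ⟨?_, Nat.lt_succ_of_le (Finset.le_sup (f := id) hp)⟩
        obtain ⟨y, hy, rfl⟩ := Finset.mem_image.1 hp
        exact (Nat.floor_lt hP0.le).2 (hYm y hy).1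
      refine (Finset.sum_le_sum_of_subset_of_nonneg h2 fun _ _ _ => by positivity).trans ?_
      refine (sum_Ioo_inv_sq_le (α := ℝ) _ _).trans ?_
      exact div_le_div_of_nonneg_left (by norm_num) hP0 (Nat.lt_floor_add_one P).le
    have e5 : 0 ≤ ∑ m ∈ Y.image Prod.snd, OSS_psi K m := Finset.sum_nonneg fun m _ => OSS_psi_nonneg hK m
    calc (∑ p ∈ Y.image Prod.fst, K / (p : ℝ) ^ 2) * ∑ m ∈ Y.image Prod.snd, OSS_psi K m
        ≤ (K * (2 / P)) * C₁ := mul_le_mul e4 e3 e5 (by positivity)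
      _ = (2 * K * C₁) / P := by ring
      _ ≤ (1 + C₁ + 2 * K * C₁) / P := by
          apply div_le_div_of_nonneg_right _ hP0.le
          linarith

end Pool.Agent.T6L
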